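import Mathlib
import Pool.Agent.Run7.h28.BV.Ent

/-!
# Integral points of finite covers of affine space above sparse points near a direction

Let `V` be a closed subscheme of `A^n × A^m` over `ℤ` whose projection to `A^n` is finite.  We prove
that the integral points `(x, y)` of `V`, where `x` is sparse and close to a direction at which the
equations of the coordinates `y_i` are unramified at infinity, and `y` is arbitrary, either lie on
nonconstant Laurent curves contained in `V` or are bounded, uniformly in `V`.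
-/

open Height

namespace Pool.Agent.Results.MP_e97a4d_nt.SparseFiniteCovers

/-- The polynomial at infinity of `P (x, Y)` in the direction `c`.  Here `P` is a polynomial in `Y`
of degree `q`, its coefficients are polynomials in `x`; the weight of every `x_l` is `q` and the
weight of `Y` is `p`; we take the part of `P` of weight `p q`, at the point `(c, Y)`. -/
noncomputable def infPoly {n : ℕ} {K : Type} [Field K] (p : ℕ)
    (P : Polynomial (MvPolynomial (Fin n) ℤ)) (c : Fin n → K) : Polynomial K :=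
  ∑ j ∈ Finset.range (P.natDegree + 1),
    Polynomial.C (∑ m ∈ (P.coeff j).support with P.natDegree * ∑ l, m l = p * (P.natDegree - j),
      (((P.coeff j).coeff m : ℤ) : K) * ∏ l, c l ^ m l) * Polynomial.X ^ j

/-- The polynomial `P (x, y_i)` in the coordinates `x_l` and `y_i` of `A^n × A^m`. -/
noncomputable def eqn {n m : ℕ} (P : Polynomial (MvPolynomial (Fin n) ℤ)) (i : Fin m) :
    MvPolynomial (Fin n ⊕ Fin m) ℤ :=
  P.eval₂ (MvPolynomial.rename Sum.inl :
    MvPolynomial (Fin n) ℤ →ₐ[ℤ] MvPolynomial (Fin n ⊕ Fin m) ℤ).toRingHom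
    (MvPolynomial.X (Sum.inr i))

/-- Every entire curve in `V (ℂ)` lies in `V' (ℂ)`, where `V` is given by the equations `G`, and `V'`
by the equations `T`: an entire curve is a nonconstant family `f` of entire functions. -/
def EntireCurvesIn {σ ι : Type} (G : ι → MvPolynomial σ ℤ) (T : Set (MvPolynomial σ ℤ)) : Prop :=
  ∀ f : σ → ℂ → ℂ, (∀ i, Differentiable ℂ (f i)) → (∃ i w, f i w ≠ f i 0) →
    (∀ j w, MvPolynomial.aeval (fun i => f i w) (G j) = 0) →
    ∀ P ∈ T, ∀ w, MvPolynomial.aeval (fun i => f i w) P = 0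

/-- Let `K` be a number field, `φ` a complex embedding of `K`, `Γ` a finitely generated subgroup of
`Kˣ`, and let `n, m, g, d, k`, `p_i`, `q_i ≥ 1`, `B`, `δ > 0` be given.  There is a constant `C` such
that the following holds for all `M ≥ 1`.

Let `V ⊂ A^n × A^m` be given by integral equations `G_1, …, G_g` of degree at most `d`, with
coefficients at most `M`, such that the coordinate `y_i` satisfies on `V` an equation
`F_i (x, y_i) = 0` (in the ideal of `V`), where `F_i` is monic of degree `q_i` in `y_i`, with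
coefficients at most `M`, and the coefficient of `y_i ^ j` has degree at most `p_i (q_i - j) / q_i`
in `x`.  Let `c ∈ K^n` have coordinates of height at most `M`, such that the polynomials at infinity
of the `F_i` in the direction `c` are separable and split over `K`.

Let `(x, y)` be an integral point of `V`, where each `x_l` is a sum of `k` terms `a u` with `u ∈ Γ` and
`a ∈ K` of height at most `M`, and `|φ (x_l - c_l v)| ≤ M (1 + |x|) ^ (1 - δ)` for an element `v ∈ Γ` of
height at most `M (1 + |x|) ^ B`; there is no condition on `y`.  Then all coordinates of `(x, y)` are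
at most `(C M) ^ C` in absolute value, or `(x, y)` is the value at `T = 1` of a nonconstant point of
`V` with coordinates in `ℂ[T, 1/T]`.

Consequently, if `V'` is a closed subscheme of `V` which contains all entire curves of `V`, then the
coordinates of all such points outside of `V'` are at most `(C M) ^ C` in absolute value. -/
theorem result {K : Type} [Field K] [NumberField K] (φ : K →+* ℂ) (Γ : Subgroup Kˣ) (hΓ : Γ.FG)
    (n m g d k : ℕ) (p q : Fin m → ℕ) (hq : ∀ i, 0 < q i) (B δ : ℝ) (hδ : 0 < δ) :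
    ∃ C : ℝ, 0 < C ∧ ∀ (M : ℝ) (G : Fin g → MvPolynomial (Fin n ⊕ Fin m) ℤ)
      (F : Fin m → Polynomial (MvPolynomial (Fin n) ℤ)) (c : Fin n → K),
      1 ≤ M → (∀ i, (G i).totalDegree ≤ d) → (∀ i s, |(((G i).coeff s : ℤ) : ℝ)| ≤ M) →
      (∀ i, (F i).Monic) → (∀ i, (F i).natDegree = q i) →
      (∀ i j s, |((((F i).coeff j).coeff s : ℤ) : ℝ)| ≤ M) →
      (∀ i, ∀ j < q i, q i * ((F i).coeff j).totalDegree ≤ p i * (q i - j)) →
      (∀ i, eqn (F i) i ∈ Ideal.span (Set.range G)) →
      (∀ l, mulHeight₁ (c l) ≤ M) →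
      (∀ i, (infPoly (p i) (F i) c).Separable) → (∀ i, (infPoly (p i) (F i) c).Splits) →
      ∀ (v : Γ) (u : Fin n → Fin k → Γ) (a : Fin n → Fin k → K) (z : Fin n ⊕ Fin m → ℤ),
      (∀ i, MvPolynomial.eval z (G i) = 0) →
      (∀ l r, mulHeight₁ (a l r) ≤ M) →
      (∀ l, (z (Sum.inl l) : K) = ∑ r, a l r * ((u l r : Kˣ) : K)) →
      mulHeight₁ ((v : Kˣ) : K) ≤ M * (1 + ∑ l, |(z (Sum.inl l) : ℝ)|) ^ B →
      (∀ l, ‖φ ((z (Sum.inl l) : K) - c l * ((v : Kˣ) : K))‖ ≤
        M * (1 + ∑ l, |(z (Sum.inl l) : ℝ)|) ^ (1 - δ)) →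
      ((∀ i, |(z i : ℝ)| ≤ (C * M) ^ C) ∨
        ∃ Z : Fin n ⊕ Fin m → LaurentPolynomial ℂ,
          (∃ l, ¬ ∃ c, Z (Sum.inl l) = LaurentPolynomial.C c) ∧
          (∀ i, LaurentPolynomial.eval₂ (RingHom.id ℂ) 1 (Z i) = z i) ∧
          ∀ i, MvPolynomial.aeval Z (G i) = 0) ∧
      ∀ T : Set (MvPolynomial (Fin n ⊕ Fin m) ℤ), EntireCurvesIn G T →
        (∀ i, |(z i : ℝ)| ≤ (C * M) ^ C) ∨ ∀ P ∈ T, MvPolynomial.eval z P = 0 := by
  obtain ⟨C, hC, h⟩ := Pool.Agent.Run7.h28.BV.main φ Γ hΓ n m g d k p q hq B δ hδ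
  refine ⟨C, hC, fun M G F c h1 h2 h3 h4 h5 h6 h7 h8 h9 h10 h11 v u a z h12 h13 h14 h15 h16 => ?_⟩
  have key := h M G F c h1 h2 h3 (fun i => ⟨h4 i, h5 i, h6 i, h7 i⟩) h8 h9 h10 h11 v u a z h12 h13
    h14 h15 h16
  refine ⟨key, fun T hT => ?_⟩
  rcases key with hk | ⟨Z, ⟨l, hl⟩, hZ1, hZ2⟩
  · exact Or.inl hk
  · exact Or.inr (Pool.Agent.Run7.h28.BV.ent G T hT Z (Sum.inl l) hl z hZ1 hZ2)

end Pool.Agent.Results.MP_e97a4d_nt.SparseFiniteCovers
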